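import Pool.Agent.Y994.KW.Stm2

/-!
# The criterion for convergence to Brownian motion

Prokhorov's theorem gives a limit point, the characters `w ↦ exp (i ∑ a_s w(s))` separate the points
of the space of paths, and a summation by parts expresses them by increments.
-/

set_option autoImplicit false

open Filter Topology MeasureTheory ProbabilityTheory BoundedContinuousFunction

namespace Y872.KW

open Y994.KW

/-- finitely supported functions on the interval, with the discrete topology -/
abbrev WF : Type := unitInterval →₀ ℝ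

instance instWFT : TopologicalSpace WF := ⊥

instance instWFD : DiscreteTopology WF := ⟨rfl⟩

/-- the value of the functional `∑ a_s w(s)` -/
noncomputable def vl (w : Pa) (a : WF) : ℝ := Finsupp.sum (a : unitInterval →₀ ℝ) (fun s x => x * w s)

/-- the pairing of paths and finitely supported functions -/
noncomputable def Lp : Pa →ₗ[ℝ] WF →ₗ[ℝ] ℝ :=
  LinearMap.mk₂ ℝ vl
    (fun w w' a => by
      unfold vl
      rw [← Finsupp.sum_add]
      refine Finsupp.sum_congr fun s _ => ?_
      rw [ContinuousMap.add_apply, mul_add])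
    (fun c w a => by
      unfold vl
      rw [Finsupp.smul_sum]
      refine Finsupp.sum_congr fun s _ => ?_
      rw [ContinuousMap.smul_apply, smul_eq_mul, smul_eq_mul]
      ring)
    (fun w a b => by
      unfold vl
      exact Finsupp.sum_add_index' (fun s => zero_mul _) (fun s x y => add_mul _ _ _))
    (fun c w a => by
      unfold vl
      have h := Finsupp.sum_smul_index' (g := (a : unitInterval →₀ ℝ)) (b := c)
        (h := fun s x => x * w s) (fun s => zero_mul _)
      refine Eq.trans h ?_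
      rw [Finsupp.smul_sum]
      refine Finsupp.sum_congr fun s _ => ?_
      rw [smul_eq_mul, smul_eq_mul, mul_assoc])

theorem Lp_apply (w : Pa) (a : WF) : Lp w a = vl w a := rfl

theorem cont_vl (a : WF) : Continuous fun w : Pa => vl w a := by
  unfold vl Finsupp.sum
  refine continuous_finsetSum _ fun s _ => ?_
  exact continuous_const.mul (ContinuousEvalConst.continuous_eval_const s)

theorem cont_Lp : Continuous fun p : Pa × WF => Lp p.1 p.2 := by
  rw [continuous_prod_of_discrete_right]
  intro a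
  exact cont_vl a

theorem Lp_ne {w : Pa} (hw : w ≠ 0) : Lp w ≠ 0 := by
  intro h
  apply hw
  ext s
  have h1 : Lp w (Finsupp.single s (1 : ℝ) : unitInterval →₀ ℝ) = 0 := by rw [h]; rfl
  rw [Lp_apply] at h1
  unfold vl at h1
  erw [Finsupp.sum_single_index (zero_mul _), one_mul] at h1
  exact h1

/-! ### summation by parts -/

theorem parts (k : ℕ) (b : Fin (k + 1) → ℝ) : ∃ θ : Fin k → ℝ, ∀ x : Fin (k + 1) → ℝ,
    ∑ j, b j * x j = ∑ j : Fin k, θ j * (x j.succ - x j.castSucc) + (∑ j, b j) * x 0 := by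
  induction k with
  | zero => exact ⟨fun _ => 0, fun x => by simp⟩
  | succ k ih =>
    obtain ⟨θ, hθ⟩ := ih (fun j => b j.succ)
    refine ⟨Fin.cons (∑ j : Fin (k + 1), b j.succ) θ, fun x => ?_⟩
    have e1 : ∑ j : Fin (k + 1), (Fin.cons (∑ j : Fin (k + 1), b j.succ) θ : Fin (k + 1) → ℝ) j
        * (x j.succ - x j.castSucc) = (∑ j : Fin (k + 1), b j.succ) * (x 1 - x 0)
          + ∑ j : Fin k, θ j * (x j.succ.succ - x j.castSucc.succ) := by
      rw [Fin.sum_univ_succ]
      rfl
    have e2 : ∑ j, b j * x j = b 0 * x 0 + ∑ j : Fin (k + 1), b j.succ * x j.succ :=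
      Fin.sum_univ_succ _
    have e3 : ∑ j, b j = b 0 + ∑ j : Fin (k + 1), b j.succ := Fin.sum_univ_succ _
    have e4 := hθ (fun j => x j.succ)
    have e5 : x (0 : Fin (k + 1)).succ = x 1 := rfl
    rw [e5] at e4
    rw [e1, e2, e3, e4]
    ring

theorem incr (a : WF) : ∃ (k : ℕ) (t : Fin (k + 1) → unitInterval) (θ : Fin k → ℝ), Monotone t ∧
    ∀ w : Pa, w 0 = 0 → vl w a = ∑ j : Fin k, θ j * (w (t j.succ) - w (t j.castSucc)) := by
  classical
  let a' : unitInterval →₀ ℝ := a
  let S : Finset unitInterval := insert 0 a'.support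
  have hS : 0 < S.card := Finset.card_pos.2 ⟨0, Finset.mem_insert_self _ _⟩
  obtain ⟨k, hk⟩ : ∃ k, S.card = k + 1 := ⟨S.card - 1, by omega⟩
  let t : Fin (k + 1) → unitInterval := fun j => S.orderEmbOfFin hk j
  obtain ⟨θ, hθ⟩ := parts k (fun j => a' (t j))
  refine ⟨k, t, θ, (S.orderEmbOfFin hk).monotone, fun w hw => ?_⟩
  have h0 : t 0 = 0 := by
    have h1 : (0 : unitInterval) ∈ Set.range (S.orderEmbOfFin hk) := by
      rw [Finset.range_orderEmbOfFin]
      exact Finset.mem_coe.2 (Finset.mem_insert_self _ _)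
    obtain ⟨j, hj⟩ := h1
    refine le_antisymm ?_ bot_le
    rw [← hj]
    exact (S.orderEmbOfFin hk).monotone (Fin.zero_le j)
  have h1 : vl w a = ∑ s ∈ S, a' s * w s := by
    unfold vl Finsupp.sum
    refine Finset.sum_subset (Finset.subset_insert _ _) fun s _ hs => ?_
    have : a' s = 0 := Finsupp.notMem_support_iff.1 hs
    show a' s * w s = 0
    rw [this, zero_mul]
  have h2 : ∑ s ∈ S, a' s * w s = ∑ j : Fin (k + 1), a' (t j) * w (t j) := by
    have h3 : S = Finset.univ.map (S.orderEmbOfFin hk).toEmbedding := by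
      ext s
      rw [Finset.mem_map]
      constructor
      · intro hs
        have h4 : s ∈ Set.range (S.orderEmbOfFin hk) := by
          rw [Finset.range_orderEmbOfFin]
          exact hs
        obtain ⟨j, hj⟩ := h4
        exact ⟨j, Finset.mem_univ _, hj⟩
      · rintro ⟨j, _, hj⟩
        rw [← hj]
        exact Finset.orderEmbOfFin_mem _ _ _
    have h5 : ∑ s ∈ Finset.univ.map (S.orderEmbOfFin hk).toEmbedding, a' s * w s
        = ∑ j : Fin (k + 1), a' (t j) * w (t j) := by
      rw [Finset.sum_map]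
      rfl
    rw [← h5, ← h3]
  rw [h1, h2, hθ (fun j => w (t j)), h0, hw]
  ring

/-! ### limits of characteristic functions -/

theorem chI_eq (μ : Measure Pa) (h0 : ∀ᵐ w ∂μ, w 0 = 0) {a : WF} {k : ℕ}
    {t : Fin (k + 1) → unitInterval} {θ : Fin k → ℝ}
    (h : ∀ w : Pa, w 0 = 0 → vl w a = ∑ j : Fin k, θ j * (w (t j.succ) - w (t j.castSucc))) :
    ∫ w, (Real.probChar (Lp w a) : ℂ) ∂μ = chI μ t θ := by
  unfold chI
  refine integral_congr_ae ?_
  filter_upwards [h0] with w hw
  rw [Real.probChar_apply, Lp_apply, h w hw]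

/-- the functional of the increments as a bounded continuous function -/
noncomputable def eI {k : ℕ} (t : Fin (k + 1) → unitInterval) (θ : Fin k → ℝ) : Pa →ᵇ ℂ :=
  BoundedContinuousFunction.ofNormedAddCommGroup
    (fun w : Pa => Complex.exp (((∑ j : Fin k, θ j * (w (t j.succ) - w (t j.castSucc)) : ℝ) : ℂ)
      * Complex.I))
    (by
      refine Complex.continuous_exp.comp (Continuous.mul (Complex.continuous_ofReal.comp ?_)
        continuous_const)
      refine continuous_finsetSum _ fun j _ => ?_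
      exact continuous_const.mul ((ContinuousEvalConst.continuous_eval_const _).sub
        (ContinuousEvalConst.continuous_eval_const _)))
    1 (fun w => by rw [Complex.norm_exp_ofReal_mul_I])

theorem chI_lim {ι : Type*} {F : Filter ι} {μ : ι → ProbabilityMeasure Pa}
    {W : ProbabilityMeasure Pa} (h : Tendsto μ F (𝓝 W)) {k : ℕ} (t : Fin (k + 1) → unitInterval)
    (θ : Fin k → ℝ) :
    Tendsto (fun i => chI (μ i : Measure Pa) t θ) F (𝓝 (chI (W : Measure Pa) t θ)) :=
  (ProbabilityMeasure.tendsto_iff_forall_integral_rclike_tendsto ℂ).1 h (eI t θ)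

/-- the truncated initial value -/
noncomputable def e0 : Pa →ᵇ ℝ :=
  BoundedContinuousFunction.ofNormedAddCommGroup (fun w : Pa => min 1 |w 0|)
    (continuous_const.min (ContinuousEvalConst.continuous_eval_const _).abs)
    1 (fun w => by
      rw [Real.norm_eq_abs, abs_of_nonneg (le_min zero_le_one (abs_nonneg _))]
      exact min_le_left _ _)

theorem zero_lim {ι : Type*} {F : Filter ι} [F.NeBot] {μ : ι → ProbabilityMeasure Pa}
    {W : ProbabilityMeasure Pa} (h : Tendsto μ F (𝓝 W))
    (h0 : ∀ i, ∀ᵐ w ∂(μ i : Measure Pa), w 0 = 0) : ∀ᵐ w ∂(W : Measure Pa), w 0 = 0 := by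
  have h1 := (ProbabilityMeasure.tendsto_iff_forall_integral_tendsto).1 h e0
  have h2 : ∀ i, ∫ w, e0 w ∂(μ i : Measure Pa) = 0 := by
    intro i
    have : ∫ w, e0 w ∂(μ i : Measure Pa) = ∫ _, (0 : ℝ) ∂(μ i : Measure Pa) := by
      refine integral_congr_ae ?_
      filter_upwards [h0 i] with w hw
      show min 1 |w 0| = 0
      rw [hw, abs_zero]
      exact min_eq_right zero_le_one
    rw [this, integral_zero]
  simp only [h2] at h1
  have h3 : ∫ w, e0 w ∂(W : Measure Pa) = 0 := (tendsto_nhds_unique h1 tendsto_const_nhds)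
  have h4 : 0 ≤ᵐ[(W : Measure Pa)] (e0 : Pa → ℝ) :=
    Eventually.of_forall fun w => le_min zero_le_one (abs_nonneg (w 0))
  have h5 := (integral_eq_zero_iff_of_nonneg_ae h4 (e0.integrable _)).1 h3
  filter_upwards [h5] with w hw
  have h6 : min 1 |w 0| = 0 := hw
  rcases le_total (1 : ℝ) |w 0| with h7 | h7
  · rw [min_eq_left h7] at h6
    exact absurd h6 one_ne_zero
  · rw [min_eq_right h7] at h6
    exact abs_eq_zero.1 h6

theorem tight (hT : S_TIGHT) {μ : ℕ → ProbabilityMeasure Pa} (h : Crit μ) :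
    IsTightMeasureSet {x | ∃ n, (μ n : Measure Pa) = x} :=
  hT (fun i => (μ i : Measure Pa)) (fun _ => inferInstance) h.zero h.modc

/-- **the criterion** -/
theorem t_DON : S_TIGHT → S_BMC → S_DON := by
  intro hT hB μ0 h0
  have hcomp : IsCompact (closure {x | ∃ n, μ0 n = x}) := by
    refine isCompact_closure_of_isTightMeasureSet ?_
    have h1 := tight hT h0
    convert h1 using 1
    ext x
    constructor
    · rintro ⟨ν, ⟨n, rfl⟩, rfl⟩
      exact ⟨n, rfl⟩
    · rintro ⟨n, rfl⟩
      exact ⟨μ0 n, ⟨n, rfl⟩, rfl⟩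
  let U : Ultrafilter ℕ := Ultrafilter.of atTop
  have hU : (U : Filter ℕ) ≤ atTop := Ultrafilter.of_le atTop
  have hUc : ((U.map μ0 : Ultrafilter (ProbabilityMeasure Pa)) : Filter (ProbabilityMeasure Pa)) ≤
      𝓟 (closure {x | ∃ n, μ0 n = x}) := by
    rw [Ultrafilter.coe_map, le_principal_iff, Filter.mem_map]
    exact Filter.univ_mem' fun n => subset_closure ⟨n, rfl⟩
  obtain ⟨W, -, hW⟩ := hcomp.ultrafilter_le_nhds (U.map μ0) hUc
  have hWt : Tendsto μ0 (U : Filter ℕ) (𝓝 W) := hW
  have hz : ∀ᵐ w ∂(W : Measure Pa), w 0 = 0 := zero_lim hWt h0.zero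
  have hc : ∀ (k : ℕ) (t : Fin (k + 1) → unitInterval) (θ : Fin k → ℝ), Monotone t →
      chI (W : Measure Pa) t θ = chB t θ := fun k t θ ht =>
    tendsto_nhds_unique (chI_lim hWt t θ) ((h0.char k t θ ht).mono_left hU)
  refine ⟨W, hB W hz hc, fun μ hμ => ?_⟩
  refine ProbabilityMeasure.tendsto_of_tight_of_separatesPoints (𝕜 := ℂ) (tight hT hμ)
    (A := charPoly Real.continuous_probChar (L := Lp) cont_Lp)
    (separatesPoints_charPoly Real.continuous_probChar Real.probChar_ne_one _
      (fun v hv => Lp_ne hv)) ?_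
  intro g hg
  rw [mem_charPoly] at hg
  obtain ⟨w, hw⟩ := hg
  have h_eq (ν : ProbabilityMeasure Pa) :
      ∫ x, g x ∂(ν : Measure Pa)
        = w.coeff.sum (fun a z ↦ z * ∫ x, (Real.probChar (Lp x a) : ℂ) ∂(ν : Measure Pa)) := by
    simp_rw [hw, Finsupp.sum]
    rw [integral_finsetSum]
    · congr with y
      rw [integral_const_mul]
    · refine fun i _ ↦ Integrable.const_mul ?_ _
      exact (BoundedContinuousFunction.char Real.continuous_probChar cont_Lp i).integrable _
  simp_rw [h_eq]
  refine tendsto_finsetSum _ fun a _ ↦ Tendsto.const_mul _ ?_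
  obtain ⟨k, t, θ, ht, h⟩ := incr a
  rw [chI_eq _ hz h, hc k t θ ht]
  have h2 : (fun i => ∫ x, (Real.probChar (Lp x a) : ℂ) ∂(μ i : Measure Pa))
      = fun i => chI (μ i : Measure Pa) t θ := by
    funext i
    exact chI_eq _ (hμ.zero i) h
  rw [h2]
  exact hμ.char k t θ ht

end Y872.KW

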